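import Pool.Graph.R_seed8.W78.GS.All

/-!
# Sign changes of the Liouville function at all definite quadratic polynomials

Definitions and statements (project Q648, helper648). `f(n) = a n^2 + b n + c`, `m = a c`,
`b^2 < 4 m`. The order of conductor `L` is `Qd (b L) (m L^2)`; its element `⟨x, y⟩` stands for
`x + y L ω`, `ω^2 = b ω - m`.
-/

set_option autoImplicit false

namespace Pool.Agent.H648.Q

open Finset Filter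
open Pool.Agent.H376R2.MR (FK Fj lam)
open Pool.Agent.W78.GA (Qd nm prim bg dt ip ang pball ball DPG ps)
open Pool.Agent.W78.GS (Pm)
open Pool.Agent.W78.GT (Tr NT tri rts Qp)
open Pool.Agent.W803.GA (rd)

/-! ### Part A: the Matomaki-Radziwill theorem for elements prime to `e` -/

/-- primitive elements `x + y L ω` of norm at most `X` with `gcd(x, e) = 1` -/
noncomputable def UU (b m : ℤ) (L e : ℕ) (X : ℝ) : Finset (Qd (b * L) (m * L ^ 2)) :=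
  (pball (b * L) (m * L ^ 2) X).filter (fun z => Int.gcd z.re e = 1)

/-- the angular polynomial over these elements -/
noncomputable def GU (g : ℕ → ℤ) (b m : ℤ) (L e : ℕ) (Y : ℝ) (k : ℤ) : ℂ :=
  DPG (UU b m L e (Real.exp 1 * Y)) (fun z => (g (nm z) : ℂ) * (bg Y z : ℂ)) k

/-- mean square at most `η` for frequencies `k ≠ 0`, `|k| < Y/h` -/
def MRq (F : ℝ → ℤ → ℂ) (η : ℝ) : Prop := ∃ h : ℝ, 1 ≤ h ∧ ∃ Y₀ : ℝ, ∀ Y : ℝ, Y₀ ≤ Y →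
  ∑ k ∈ (FK ⌊Y / h⌋₊).erase 0, ‖F Y k‖ ^ 2 ≤ η

/-- A1: recursion -/
def S_REC (g : ℕ → ℤ) (b m : ℤ) : Prop := ∀ p L e : ℕ, p.Prime → 1 ≤ L → 1 ≤ e → ¬ p ∣ e →
  ∀ Y : ℝ, 0 < Y → ∀ k : ℤ, GU g b m (p * L) (e * p) Y k = GU g b m (p * L) e Y k -
    (1 / (p : ℂ) ^ 2) * (GU g b m L e (Y / (p : ℝ) ^ 2) k -
      GU g b m (p * L) (e * p) (Y / (p : ℝ) ^ 2) k)

/-- A2: boundedness -/
def S_BDD (g : ℕ → ℤ) (b m : ℤ) : Prop := ∀ L e : ℕ, 1 ≤ L → ∃ C : ℝ, MRq (GU g b m L e) C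

/-- A3: contraction -/
def S_CTR : Prop := ∀ (F F' G : ℝ → ℤ → ℂ) (p : ℕ), 2 ≤ p → (∀ η : ℝ, 0 < η → MRq F η) →
  (∀ η : ℝ, 0 < η → MRq F' η) → (∃ C : ℝ, MRq G C) →
  (∀ Y : ℝ, 0 < Y → ∀ k : ℤ, G Y k = F Y k -
    (1 / (p : ℂ) ^ 2) * (F' (Y / (p : ℝ) ^ 2) k - G (Y / (p : ℝ) ^ 2) k)) →
  ∀ η : ℝ, 0 < η → MRq G η

/-- A4: the Matomaki-Radziwill theorem for elements prime to `e` -/
def S_MRU (g : ℕ → ℤ) (b m : ℤ) : Prop := ∀ L e : ℕ, 1 ≤ L → e ∣ L → Squarefree e →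
  ∀ η : ℝ, 0 < η → MRq (GU g b m L e) η

/-! ### Part B: pairs of close directions with different signs -/

/-- B0: the main frequency of the constant function is not always small -/
def S_WIN (b m : ℤ) : Prop := ∀ L e : ℕ, 1 ≤ L → 1 ≤ e → ∃ c₀ : ℝ, 0 < c₀ ∧ ∃ C : ℝ, 1 ≤ C ∧
  ∃ Y₀ : ℝ, ∀ Y : ℝ, Y₀ ≤ Y → ∃ Y' : ℝ, Y / C ≤ Y' ∧ Y' ≤ C * Y ∧
    c₀ ≤ ∑ z ∈ UU b m L e (Real.exp 1 * Y'), bg Y' z

open scoped Classical in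
/-- the Fejer sum over the pairs of different sign -/
noncomputable def FS (g : ℕ → ℤ) (b m : ℤ) (L e : ℕ) (u : Qd (b * L) (m * L ^ 2)) (K : ℕ)
    (X : ℝ) : ℝ := ∑ z ∈ UU b m L e X, ∑ z' ∈ UU b m L e X,
  (if g (nm z) ≠ g (nm (u * z')) then Fj K (ang z - ang (u * z')) else 0)

open scoped Classical in
/-- pairs `(z, z')` with `z` and `u z'` of different sign and of angular distance at most `δ` -/
noncomputable def AP (g : ℕ → ℤ) (b m : ℤ) (L e : ℕ) (u : Qd (b * L) (m * L ^ 2)) (δ : ℝ)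
    (X : ℝ) : Finset (Qd (b * L) (m * L ^ 2) × Qd (b * L) (m * L ^ 2)) :=
  ((UU b m L e X) ×ˢ (UU b m L e X)).filter (fun p => g (nm p.1) ≠ g (nm (u * p.2)) ∧
    |rd (ang p.1 - ang (u * p.2))| ≤ δ)

open scoped Classical in
/-- pairs `(z, z')` with `z` and `u z'` of different sign and small determinant -/
noncomputable def NPr (g : ℕ → ℤ) (b m : ℤ) (L e : ℕ) (u : Qd (b * L) (m * L ^ 2)) (B : ℕ)
    (X : ℝ) : Finset (Qd (b * L) (m * L ^ 2) × Qd (b * L) (m * L ^ 2)) :=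
  ((UU b m L e X) ×ˢ (UU b m L e X)).filter (fun p => g (nm p.1) ≠ g (nm (u * p.2)) ∧
    |dt p.1 (u * p.2)| ≤ B ∧ 0 < 2 * ip p.1 (u * p.2) + (b * L) * dt p.1 (u * p.2))

/-- B1: the `T`-inequality -/
def S_TIN (g : ℕ → ℤ) (b m : ℤ) : Prop := ∀ (L e : ℕ) (u₀ : Qd (b * L) (m * L ^ 2)), 1 ≤ L →
  u₀ ≠ 0 → g (nm u₀) = -1 → ∀ (Y : ℝ) (K : ℕ), 0 < Y → 1 ≤ K →
    (∑ z ∈ UU b m L e (Real.exp 1 * Y), bg Y z) ^ 2 ≤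
      (Real.exp 1 / Y) ^ 2 * (FS g b m L e 1 K (Real.exp 1 * Y) +
        FS g b m L e u₀ K (Real.exp 1 * Y)) +
      ∑ k ∈ (FK K).erase 0, ‖GU g b m L e Y k‖ ^ 2

/-- B2: far pairs contribute little -/
def S_FAR (g : ℕ → ℤ) (b m : ℤ) : Prop := ∀ L : ℕ, 1 ≤ L → ∃ C : ℝ, 0 < C ∧
  ∀ (e : ℕ) (X T : ℝ) (K : ℕ) (u : Qd (b * L) (m * L ^ 2)), 1 ≤ X → 1 ≤ T → 1 ≤ K →
    2 * T ≤ K → u ≠ 0 →
    FS g b m L e u K X ≤ K * ((AP g b m L e u (T / K) X).card : ℝ) +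
      C * (X ^ 2 / T + X * K / T ^ 2)

/-- B3: pairs of small angular distance have small determinant -/
def S_ANG (g : ℕ → ℤ) (b m : ℤ) : Prop := ∀ L e : ℕ, 1 ≤ L → ∀ (u : Qd (b * L) (m * L ^ 2))
  (B : ℕ) (X δ : ℝ), 1 ≤ X → 0 ≤ δ → δ ≤ 1 / 2 → u ≠ 0 → 2 * X * Real.sqrt (nm u) * δ ≤ B →
    AP g b m L e u δ X ⊆ NPr g b m L e u B X

/-- B4: many pairs of small determinant and different sign -/
def S_NEAR (g : ℕ → ℤ) (b m : ℤ) : Prop := ∀ (L e : ℕ) (u₀ : Qd (b * L) (m * L ^ 2)), 1 ≤ L →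
  1 ≤ e → (∀ η : ℝ, 0 < η → MRq (GU g b m L e) η) → u₀ ≠ 0 → g (nm u₀) = -1 →
  ∃ B : ℕ, ∃ c₁ : ℝ, 0 < c₁ ∧ ∃ X₀ : ℝ, ∀ X : ℝ, X₀ ≤ X →
    c₁ * X ≤ ((NPr g b m L e 1 B X).card : ℝ) + ((NPr g b m L e u₀ B X).card : ℝ)

/-! ### Part C: from pairs to triples -/

open scoped Classical in
/-- triples `(d, n, d')`, `d d' = n^2 + b κ n + m κ^2`, with `gcd(n, κ) = 1` and sign `-1` -/
noncomputable def TS (g : ℕ → ℤ) (b m κ : ℤ) (X : ℝ) : Finset Tr :=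
  (tri (b * κ) (m * κ ^ 2) X X).filter (fun e => Int.gcd e.2.1 κ = 1 ∧ g (NT e) = -1)

/-- C1: few pairs with the same norm and the same product -/
def S_MUL (b m : ℤ) : Prop := ∀ (a : ℕ) (u : Qd (b * a) (m * a ^ 2)) (B : ℕ), 1 ≤ a → u ≠ 0 →
  ∃ C : ℕ, ∀ (E G : ℕ) (n k : ℤ) (d d' : ℕ)
    (S : Finset (Qd (b * a) (m * a ^ 2) × Qd (b * a) (m * a ^ 2))),
    1 ≤ E → E ≤ B → 1 ≤ G → G ≤ B → 1 ≤ d → 1 ≤ d' → Int.gcd n k = 1 →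
    (d : ℤ) * d' = n ^ 2 + (b * a) * n * k + (m * a ^ 2) * k ^ 2 →
    (∀ p ∈ S, nm p.1 = d * G ∧ ip p.1 (u * p.2) = E * n ∧ dt p.1 (u * p.2) = E * k) →
    S.card ≤ C

/-- C2: from pairs to triples -/
def S_TRI (g : ℕ → ℤ) (b m : ℤ) : Prop := ∀ (a e : ℕ) (u : Qd (b * a) (m * a ^ 2)) (B : ℕ),
  1 ≤ a → (∀ p : ℕ, p.Prime → p ∣ a → p ∣ e) → Int.gcd u.re a = 1 → u ≠ 0 →
  ∃ C : ℝ, 1 ≤ C ∧ ∀ X : ℝ, 1 ≤ X → ((NPr g b m a e u B X).card : ℝ) ≤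
    C * ∑ k ∈ (Icc (-(B : ℤ)) B).erase 0, ((TS g b m (a * k) (C * X)).card : ℝ)

/-! ### Part D: the sieve -/

/-- a prime of `Q` can be moved so that `d ≡ ± n` modulo `M` -/
def Gd (M : ℤ) (Q : Finset ℕ) (e : Tr) : Prop := ∃ l ∈ Q, ∃ d : ℕ, e.1 = l * d ∧
  (M ∣ e.2.1 - d ∨ M ∣ e.2.1 + d)

/-- D0: finite sets of primes in a residue class with small product -/
def S_PRD : Prop := ∀ N r : ℕ, 1 ≤ N → Nat.Coprime r N → ∀ η : ℝ, 0 < η → ∃ Q : Finset ℕ,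
  (∀ q ∈ Q, q.Prime ∧ q ≡ r [MOD N]) ∧ ∏ q ∈ Q, (1 - 1 / (q : ℝ)) ≤ η

/-- D1: few roots without divisors from a finite set of split primes -/
def S_SFT (t c : ℤ) : Prop := ∃ C : ℝ, 0 < C ∧ ∀ Q : Finset ℕ,
  (∀ q ∈ Q, q.Prime ∧ q ≠ 2 ∧ ∃ s : ZMod q, s * s = ((t ^ 2 - 4 * c : ℤ) : ZMod q)) →
  ∃ X₀ : ℝ, ∀ X : ℝ, X₀ ≤ X →
    (((rts t c X).filter (fun e => ∀ q ∈ Q, ¬ q ∣ e.1)).card : ℝ) ≤
      C * (∏ q ∈ Q, (1 - 1 / (q : ℝ))) * X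

/-- D2: a residue class of primes in which `D` is a square, up to sign -/
def S_CLS (D : ℤ) : Prop := ∀ (M : ℕ) (ρ : ℤ), 1 ≤ M → Int.gcd ρ M = 1 → ∃ s : ℤ,
  (s = 1 ∨ s = -1) ∧ ∃ N r : ℕ, 1 ≤ N ∧ Nat.Coprime r N ∧ M ∣ N ∧
    (M : ℤ) ∣ (r : ℤ) - s * ρ ∧ ∀ q : ℕ, q.Prime → q ≡ r [MOD N] → q ≠ 2 ∧
      ∃ x : ZMod q, x * x = (D : ZMod q)

open scoped Classical in
/-- D3: for most triples a prime of a finite set can be moved -/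
def S_SV (b m : ℤ) : Prop := ∀ (κ : ℤ) (M : ℕ), κ ≠ 0 → 1 ≤ M → κ ∣ M →
  (∀ p : ℕ, p.Prime → p ∣ M → (p : ℤ) ∣ κ) →
  ∀ δ : ℝ, 0 < δ → ∃ Q : Finset ℕ, (∀ q ∈ Q, q.Prime) ∧ ∃ X₀ : ℝ, ∀ X : ℝ, X₀ ≤ X →
    (((tri (b * κ) (m * κ ^ 2) X X).filter
      (fun e => Int.gcd e.2.1 κ = 1 ∧ ¬ Gd M Q e)).card : ℝ) ≤ δ * X

/-! ### Part E: the star and the count -/

/-- the quadratic polynomial -/
def Fp (a b c n : ℤ) : ℤ := a * n ^ 2 + b * n + c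

/-- E1: the star -/
def S_STR (g : ℕ → ℤ) (a b c : ℤ) : Prop := ∀ (κ s n : ℤ) (d d' : ℕ), κ ≠ 0 → a ∣ κ →
  (s = 1 ∨ s = -1) → 1 ≤ d → 1 ≤ d' → (d : ℤ) * d' = n ^ 2 + b * κ * n + a * c * κ ^ 2 →
  Int.gcd n κ = 1 → a * κ ∣ n - s * d → ∃ n₁ n₂ : ℤ, a * κ * n₁ = n - s * d ∧
    a * κ * n₂ = s * d' - n - b * κ ∧
    g (Fp a b c n₁).natAbs * g (Fp a b c n₂).natAbs = g (d * d') ∧
    (d : ℤ) ∣ a * κ ^ 2 * Fp a b c n₁ ∧ (d' : ℤ) ∣ a * κ ^ 2 * Fp a b c n₂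

open scoped Classical in
/-- E2: from triples to integers -/
def S_CNT (g : ℕ → ℤ) (a b c : ℤ) : Prop := ∀ (κ : ℤ) (Q : Finset ℕ), κ ≠ 0 → a ∣ κ →
  (∀ q ∈ Q, q.Prime) → ∀ ε : ℝ, 0 < ε → ∃ C : ℝ, 1 ≤ C ∧ ∀ N : ℕ, 1 ≤ N → ∀ s : ℤ,
    (s = 1 ∨ s = -1) →
    (((TS g b (a * c) κ (N / C)).filter (fun e => Gd (a * κ) Q e)).card : ℝ) ≤
      C * (N : ℝ) ^ ε * (((Icc (-(N : ℤ)) N).filter
        (fun n => g (Fp a b c n).natAbs = s)).card : ℝ)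

/-! ### Part F: a unit with sign `-1` -/

/-- F0: Legendre, primitive form -/
def S_LG0 : Prop := ∀ (D : ℤ) (N : ℕ), ¬ IsSquare D → 1 ≤ N → ∃ (p : ℕ) (x y w : ℤ), p.Prime ∧
  p ≡ 1 [MOD N] ∧ (∀ q : ℤ, Prime q → q ∣ x → q ∣ y → ¬ q ∣ w) ∧ w ≠ 0 ∧
  x ^ 2 - D * y ^ 2 = p * w ^ 2

/-- F1: elementary -/
def S_LEG : Prop := ∀ (D : ℤ) (A : ℕ), ¬ IsSquare D → 1 ≤ A → ∃ (x y r : ℤ) (p : ℕ), p.Prime ∧
  r ≠ 0 ∧ Int.gcd x A = 1 ∧ (A : ℤ) ∣ y ∧ x ^ 2 - D * y ^ 2 = p * r ^ 2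

/-- F2: an element of the order of conductor `a`, prime to `a`, with sign `-1` -/
def S_UNT (b m : ℤ) : Prop := ∀ a : ℕ, 1 ≤ a → ∃ u : Qd (b * a) (m * a ^ 2), u ≠ 0 ∧
  Int.gcd u.re a = 1 ∧ lam (nm u) = -1

/-! ### Part G: the theorem -/

open scoped Classical in
/-- G1: many integers with each sign -/
def S_FIN (a b c : ℤ) : Prop := ∀ s : ℤ, (s = 1 ∨ s = -1) → ∀ ε : ℝ, 0 < ε → ∃ N₀ : ℕ,
  ∀ N : ℕ, N₀ ≤ N → (N : ℝ) ^ (1 - ε) ≤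
    (((Icc (-(N : ℤ)) N).filter (fun n => lam (Fp a b c n).natAbs = s)).card : ℝ)

/-- G2: infinitely many positive integers with each sign -/
def S_INF (a b c : ℤ) : Prop := ∀ s : ℤ, (s = 1 ∨ s = -1) →
  {n : ℕ | lam (Fp a b c n).natAbs = s}.Infinite

end Pool.Agent.H648.Q
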