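import Pool.Agent.H648.Q.Defs

/-!
# Project Q648, second part: all quadratic polynomials of nonsquare discriminant

The Matomaki-Radziwill theorem for completely multiplicative functions `F` of the elements of a
quadratic order (namespaces `I`: imaginary, `R`: real), the twist by the quadratic character of the
field, and positive arguments.
-/

set_option autoImplicit false

namespace Pool.Agent.H648.Q2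

open Finset Filter
open Pool.Agent.H376R2.MR (FK Fj lam)
open Pool.Agent.W78.GA (Qd nm prim bg dt ip cellM mE)
open Pool.Agent.W78.GS (Pm)
open Pool.Agent.W78.GT (Tr NT tri rts Qp)
open Pool.Agent.H648.Q (UU MRq Fp)
open Pool.Agent.W803.GA (rd)

/-! ## Part I: imaginary quadratic orders, general multiplicative functions -/

namespace I

/-- completely multiplicative functions on the nonzero elements, of absolute value at most `1` -/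
structure Pf {t c : ℤ} (F : Qd t c → ℤ) : Prop where
  mul : ∀ z w : Qd t c, z ≠ 0 → w ≠ 0 → F (z * w) = F z * F w
  le : ∀ z : Qd t c, |F z| ≤ 1

variable {t c : ℤ} (F : Qd t c → ℤ)

/-- `G_Y(k) = ∑_{z primitive} F(z) w(log(N z/Y))/N z (z/|z|)^k` -/
noncomputable def GG (Y : ℝ) (k : ℤ) : ℂ :=
  Pool.Agent.W78.GA.DPG (Pool.Agent.W78.GA.pball t c (Real.exp 1 * Y))
    (fun z => (F z : ℂ) * (bg Y z : ℂ)) k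

/-- `- ∑_{m ∈ cell} F(ϖ_m) (ϖ_m/|ϖ_m|)^k / m`, all `k` -/
noncomputable def PE (M : ℕ → Prop) (ϖ : ℕ → Qd t c) (H v : ℕ) (k : ℤ) : ℂ :=
  -∑ m ∈ cellM M H v, (F (ϖ m) : ℂ) * Pool.Agent.W78.GA.ps k (ϖ m) / (m : ℂ)

/-- DEC: the decomposition -/
def S_DEC : Prop := ∀ (Ap Bp M : ℕ → Prop) (E : ℕ) (ρ : ℕ → ℤ) (ϖ : ℕ → Qd t c),
  Pool.Agent.W78.GA.Ele t c Ap Bp M E ρ ϖ → ∃ C : ℝ, 0 < C ∧ ∀ H v₀ v₁ : ℕ, 1 ≤ H → H ≤ v₀ →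
    1 ≤ ∑ v ∈ Ico v₀ v₁, mE M H v → ∀ Y : ℝ, Real.exp (4 * (v₁ : ℝ) / H) ≤ Y →
    ∃ (s : Finset (Qd t c)) (f : Qd t c → ℂ), (∀ z ∈ s, prim z ∧ (nm z : ℝ) ≤ Real.exp 2 * Y) ∧
      (∀ k : ℤ, GG F Y k = -(1 / ((∑ v ∈ Ico v₀ v₁, mE M H v : ℝ) : ℂ)) *
        ∑ v ∈ Ico v₀ v₁, PE F M ϖ H v k * GG F (Y * Real.exp (-((v : ℝ) / H))) k +
        Pool.Agent.W78.GA.DPG s f k) ∧
      Y * ∑ z ∈ s, ‖f z‖ ^ 2 ≤ C * (1 / (∑ v ∈ Ico v₀ v₁, mE M H v) + 1 / (H : ℝ) ^ 2)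

/-- MOM0: the mean values of `G` -/
def S_MOM0 : Prop := ∃ C : ℝ, 0 < C ∧ ∀ (K : ℕ) (Z : ℝ), 3 ≤ Z → 1 ≤ K →
    ∑ k ∈ FK K, ‖GG F Z k‖ ^ 2 ≤ C * (1 + (K : ℝ) / Z)

/-- MOMP: the moments of `P` -/
def S_MOMP : Prop := ∀ (Ap Bp M : ℕ → Prop) (E : ℕ) (ρ : ℕ → ℤ) (ϖ : ℕ → Qd t c),
  Pool.Agent.W78.GA.Ele t c Ap Bp M E ρ ϖ → ∃ C : ℝ, 1 ≤ C ∧ ∀ H r ℓ K : ℕ, 1 ≤ H → 1 ≤ K →
    (K : ℝ) ≤ Real.exp ((r : ℝ) * ℓ / H) →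
    ∑ k ∈ FK K, ‖PE F M ϖ H r k‖ ^ (2 * ℓ) ≤ C ^ (ℓ + 1) * (ℓ.factorial : ℝ) ^ 8

/-- MOM: mixed moments -/
def S_MOM : Prop := ∀ (Ap Bp M : ℕ → Prop) (E : ℕ) (ρ : ℕ → ℤ) (ϖ : ℕ → Qd t c),
  Pool.Agent.W78.GA.Ele t c Ap Bp M E ρ ϖ → ∃ C : ℝ, 1 ≤ C ∧
    ∀ (H r ℓ K : ℕ) (Z : ℝ), 1 ≤ H → 3 ≤ Z → 1 ≤ K → (K : ℝ) ≤ Z * Real.exp ((r : ℝ) * ℓ / H) →
    ∑ k ∈ FK K, ‖PE F M ϖ H r k ^ ℓ * GG F Z k‖ ^ 2 ≤ C ^ (ℓ + 1) * (ℓ.factorial : ℝ) ^ 8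

/-- CELLE -/
def S_CELLE : Prop := ∀ (Ap Bp M : ℕ → Prop) (E : ℕ) (ρ : ℕ → ℤ) (ϖ : ℕ → Qd t c),
  Pool.Agent.W78.GA.Ele t c Ap Bp M E ρ ϖ → ∃ c' : ℝ, 0 < c' ∧ c' ≤ 1 ∧ ∃ Λ : ℕ,
    ∀ M' H : ℕ, 1 ≤ H → ∃ V₀ : ℕ, ∀ v₀ v₁ : ℕ, V₀ ≤ v₀ → Λ * v₀ ≤ v₁ → ∀ k : ℤ, k ≠ 0 →
    |(k : ℝ)| ≤ Real.exp (M' * (v₀ : ℝ) / H) →
    ∑ v ∈ Ico v₀ v₁, ‖PE F M ϖ H v k‖ ≤ (1 - c') * ∑ v ∈ Ico v₀ v₁, mE M H v

/-- MR: the Matomaki-Radziwill theorem for `F` -/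
def S_MR : Prop := ∀ δ : ℝ, 0 < δ → MRq (GG F) δ

end I

/-! ## Part R: real quadratic orders, general multiplicative functions -/

namespace R

/-- completely multiplicative functions on the totally positive elements, of absolute value at most
`1`, with value `1` at the unit `η` -/
structure Pf {t c : ℤ} (η : (Qd t c)ˣ) (F : Qd t c → ℤ) : Prop where
  mul : ∀ z w : Qd t c, Pool.Agent.W78.GR.tp z → Pool.Agent.W78.GR.tp w → F (z * w) = F z * F w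
  le : ∀ z : Qd t c, |F z| ≤ 1
  unit : F (η : Qd t c) = 1

variable {t c : ℤ} (η : (Qd t c)ˣ) (F : Qd t c → ℤ)

/-- `G_Y(k) = ∑_{z primitive} F(z) w(log(N z/Y))/N z ps k z`, `z` in the fundamental domain -/
noncomputable def GG (Y : ℝ) (k : ℤ) : ℂ :=
  Pool.Agent.W78.GR.DPG η (Pool.Agent.W78.GR.pball η (Real.exp 1 * Y))
    (fun z => (F z : ℂ) * (bg Y z : ℂ)) k

/-- `- ∑_{m ∈ cell} F(ϖ_m) ps k (ϖ_m) / m` -/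
noncomputable def PE (M : ℕ → Prop) (ϖ : ℕ → Qd t c) (H v : ℕ) (k : ℤ) : ℂ :=
  -∑ m ∈ cellM M H v, (F (ϖ m) : ℂ) * Pool.Agent.W78.GR.ps η k (ϖ m) / (m : ℂ)

/-- DEC: the decomposition -/
def S_DEC : Prop := ∀ (Ap Bp M : ℕ → Prop) (E : ℕ) (ρ : ℕ → ℤ) (ϖ : ℕ → Qd t c),
  Pool.Agent.W78.GR.Ele t c Ap Bp M E ρ ϖ → ∃ C : ℝ, 0 < C ∧ ∀ H v₀ v₁ : ℕ, 1 ≤ H → H ≤ v₀ →
    1 ≤ ∑ v ∈ Ico v₀ v₁, mE M H v → ∀ Y : ℝ, Real.exp (4 * (v₁ : ℝ) / H) ≤ Y →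
    ∃ (s : Finset (Qd t c)) (f : Qd t c → ℂ),
      s ⊆ Pool.Agent.W78.GR.pball η (Real.exp 2 * Y) ∧
      (∀ k : ℤ, GG η F Y k = -(1 / ((∑ v ∈ Ico v₀ v₁, mE M H v : ℝ) : ℂ)) *
        ∑ v ∈ Ico v₀ v₁, PE η F M ϖ H v k * GG η F (Y * Real.exp (-((v : ℝ) / H))) k +
        Pool.Agent.W78.GR.DPG η s f k) ∧
      Y * ∑ z ∈ s, ‖f z‖ ^ 2 ≤ C * (1 / (∑ v ∈ Ico v₀ v₁, mE M H v) + 1 / (H : ℝ) ^ 2)

/-- MOM0: the mean values of `G` -/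
def S_MOM0 : Prop := ∃ C : ℝ, 0 < C ∧ ∀ (K : ℕ) (Z : ℝ), 3 ≤ Z → 1 ≤ K →
    ∑ k ∈ FK K, ‖GG η F Z k‖ ^ 2 ≤ C * (1 + (K : ℝ) / Z)

/-- MOMP: the moments of `P` -/
def S_MOMP : Prop := ∀ (Ap Bp M : ℕ → Prop) (E : ℕ) (ρ : ℕ → ℤ) (ϖ : ℕ → Qd t c),
  Pool.Agent.W78.GR.Ele t c Ap Bp M E ρ ϖ → ∃ C : ℝ, 1 ≤ C ∧ ∀ H r ℓ K : ℕ, 1 ≤ H → 1 ≤ K →
    (K : ℝ) ≤ Real.exp ((r : ℝ) * ℓ / H) →
    ∑ k ∈ FK K, ‖PE η F M ϖ H r k‖ ^ (2 * ℓ) ≤ C ^ (ℓ + 1) * (ℓ.factorial : ℝ) ^ 8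

/-- MOM: mixed moments -/
def S_MOM : Prop := ∀ (Ap Bp M : ℕ → Prop) (E : ℕ) (ρ : ℕ → ℤ) (ϖ : ℕ → Qd t c),
  Pool.Agent.W78.GR.Ele t c Ap Bp M E ρ ϖ → ∃ C : ℝ, 1 ≤ C ∧
    ∀ (H r ℓ K : ℕ) (Z : ℝ), 1 ≤ H → 3 ≤ Z → 1 ≤ K → (K : ℝ) ≤ Z * Real.exp ((r : ℝ) * ℓ / H) →
    ∑ k ∈ FK K, ‖PE η F M ϖ H r k ^ ℓ * GG η F Z k‖ ^ 2 ≤ C ^ (ℓ + 1) * (ℓ.factorial : ℝ) ^ 8

/-- CELLE -/
def S_CELLE : Prop := ∀ (Ap Bp M : ℕ → Prop) (E : ℕ) (ρ : ℕ → ℤ) (ϖ : ℕ → Qd t c),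
  Pool.Agent.W78.GR.Ele t c Ap Bp M E ρ ϖ → ∃ c' : ℝ, 0 < c' ∧ c' ≤ 1 ∧ ∃ Λ : ℕ,
    ∀ M' H : ℕ, 1 ≤ H → ∃ V₀ : ℕ, ∀ v₀ v₁ : ℕ, V₀ ≤ v₀ → Λ * v₀ ≤ v₁ → ∀ k : ℤ, k ≠ 0 →
    |(k : ℝ)| ≤ Real.exp (M' * (v₀ : ℝ) / H) →
    ∑ v ∈ Ico v₀ v₁, ‖PE η F M ϖ H v k‖ ≤ (1 - c') * ∑ v ∈ Ico v₀ v₁, mE M H v

/-- MR: the Matomaki-Radziwill theorem for `F` -/
def S_MR : Prop := ∀ δ : ℝ, 0 < δ → MRq (GG η F) δ

/-- primitive elements of the fundamental domain prime to `A` -/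
noncomputable def UR (A : ℕ) (X : ℝ) : Finset (Qd t c) :=
  (Pool.Agent.W78.GR.pball η X).filter (fun z => Int.gcd z.re A = 1)

end R

/-! ## Part X: quadratic characters -/

/-- real characters modulo `A` -/
structure IsChi (A : ℕ) (χ : ℤ → ℤ) : Prop where
  mul : ∀ x y : ℤ, χ (x * y) = χ x * χ y
  per : ∀ x y : ℤ, (A : ℤ) ∣ x - y → χ x = χ y
  val : ∀ x : ℤ, Int.gcd x A = 1 → χ x = 1 ∨ χ x = -1
  zero : ∀ x : ℤ, Int.gcd x A ≠ 1 → χ x = 0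

/-- the character `(D / ·)` modulo `A`, where `4 D ∣ A` -/
noncomputable def chi (D : ℤ) (A : ℕ) (x : ℤ) : ℤ :=
  if Int.gcd x A = 1 then jacobiSym D (x % (A : ℤ)).toNat else 0

/-- X1: properties of `chi` -/
def S_CHI : Prop := ∀ (D : ℤ) (A : ℕ), D ≠ 0 → 1 ≤ A → 4 * D ∣ (A : ℤ) → IsChi A (chi D A) ∧
  (∀ n : ℕ, Nat.Coprime n A → chi D A n = jacobiSym D n) ∧
  (∀ n : ℕ, Nat.Coprime n A → (∀ l : ℕ, l.Prime → l ∣ n → ∃ x : ZMod l, x * x = (D : ZMod l)) →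
    chi D A n = 1)

/-- X2: primitive norms `p r^2` with character `1` -/
def S_LEG2 : Prop := ∀ (D : ℤ) (A : ℕ), ¬ IsSquare D → 1 ≤ A → 4 * D ∣ (A : ℤ) →
  ∃ (x y r : ℤ) (p : ℕ), p.Prime ∧ r ≠ 0 ∧ Int.gcd x A = 1 ∧ (A : ℤ) ∣ y ∧ Int.gcd x y = 1 ∧
    x ^ 2 - D * y ^ 2 = p * r ^ 2 ∧ chi D A x = 1 ∧ (0 < D → 0 < x)

/-- X2': a primitive element of sign `-1` and character `1`; totally positive in the real case -/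
def S_UNT2 (b m : ℤ) : Prop := ∀ A : ℕ, 1 ≤ A → 4 * (b ^ 2 - 4 * m) ∣ (A : ℤ) →
  ∃ u : Qd (b * A) (m * A ^ 2), prim u ∧ chi (b ^ 2 - 4 * m) A u.re = 1 ∧ lam (nm u) = -1 ∧
    (4 * m < b ^ 2 → Pool.Agent.W78.GR.tp u)

/-- X3: a unit congruent to `1` (real case) -/
def S_ETA (b m : ℤ) : Prop := ∀ A : ℕ, 1 ≤ A → ∃ η : (Qd (b * A) (m * A ^ 2))ˣ,
  Pool.Agent.W78.GR.Un (b * A) (m * A ^ 2) η ∧ (A : ℤ) ∣ (η : Qd (b * A) (m * A ^ 2)).re - 1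

/-! ## Part N: near pairs -/

section imag

variable (g : ℕ → ℤ) (b m : ℤ) (A : ℕ) (χ : ℤ → ℤ)

open scoped Classical in
/-- the Fejer sum over the pairs of different sign and equal character (imaginary case) -/
noncomputable def FSI (u : Qd (b * A) (m * A ^ 2)) (K : ℕ) (X : ℝ) : ℝ :=
  ∑ z ∈ UU b m A A X, ∑ z' ∈ UU b m A A X,
    (if g (nm z) ≠ g (nm (u * z')) ∧ χ z.re = χ (u * z').re then
      Fj K (Pool.Agent.W78.GA.ang z - Pool.Agent.W78.GA.ang (u * z')) else 0)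

open scoped Classical in
/-- pairs of different sign, equal character and angular distance at most `δ` -/
noncomputable def API (u : Qd (b * A) (m * A ^ 2)) (δ : ℝ) (X : ℝ) :
    Finset (Qd (b * A) (m * A ^ 2) × Qd (b * A) (m * A ^ 2)) :=
  ((UU b m A A X) ×ˢ (UU b m A A X)).filter (fun p => g (nm p.1) ≠ g (nm (u * p.2)) ∧
    χ p.1.re = χ (u * p.2).re ∧
    |rd (Pool.Agent.W78.GA.ang p.1 - Pool.Agent.W78.GA.ang (u * p.2))| ≤ δ)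

open scoped Classical in
/-- pairs of different sign, equal character and small determinant -/
noncomputable def NPI (u : Qd (b * A) (m * A ^ 2)) (B : ℕ) (X : ℝ) :
    Finset (Qd (b * A) (m * A ^ 2) × Qd (b * A) (m * A ^ 2)) :=
  ((UU b m A A X) ×ˢ (UU b m A A X)).filter (fun p => g (nm p.1) ≠ g (nm (u * p.2)) ∧
    χ p.1.re = χ (u * p.2).re ∧
    |dt p.1 (u * p.2)| ≤ B ∧ 0 < 2 * ip p.1 (u * p.2) + (b * A) * dt p.1 (u * p.2))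

/-- NI1: the `T`-inequality with two functions, imaginary case -/
def S_TINI : Prop := IsChi A χ → ∀ u : Qd (b * A) (m * A ^ 2), u ≠ 0 → g (nm u) = -1 →
  χ u.re = 1 → ∀ (Y : ℝ) (K : ℕ), 0 < Y → 1 ≤ K →
    (∑ z ∈ UU b m A A (Real.exp 1 * Y), bg Y z) ^ 2 ≤
      2 * (Real.exp 1 / Y) ^ 2 * (FSI g b m A χ 1 K (Real.exp 1 * Y) +
        FSI g b m A χ u K (Real.exp 1 * Y)) +
      (∑ k ∈ (FK K).erase 0, ‖I.GG (t := b * A) (c := m * A ^ 2)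
        (fun z => g (nm z) * χ z.re ^ 2) Y k‖ ^ 2 +
       ∑ k ∈ (FK K).erase 0, ‖I.GG (t := b * A) (c := m * A ^ 2)
        (fun z => g (nm z) * χ z.re) Y k‖ ^ 2)

/-- NI2: far pairs contribute little -/
def S_FARI : Prop := ∃ C : ℝ, 0 < C ∧ ∀ (X T : ℝ) (K : ℕ) (u : Qd (b * A) (m * A ^ 2)),
  1 ≤ X → 1 ≤ T → 1 ≤ K → 2 * T ≤ K → u ≠ 0 →
    FSI g b m A χ u K X ≤ K * ((API g b m A χ u (T / K) X).card : ℝ) +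
      C * (X ^ 2 / T + X * K / T ^ 2)

/-- NI4: many pairs of small determinant, different sign and equal character -/
def S_NEARI : Prop := ∃ (V : Finset (Qd (b * A) (m * A ^ 2))) (B : ℕ) (c₁ : ℝ),
  (∀ u ∈ V, prim u ∧ Int.gcd u.re A = 1) ∧ 0 < c₁ ∧ ∃ X₀ : ℝ, ∀ X : ℝ, X₀ ≤ X →
    c₁ * X ≤ ∑ u ∈ V, ((NPI g b m A χ u B X).card : ℝ)

end imag

section real

variable (g : ℕ → ℤ) {t c : ℤ} (A : ℕ) (χ : ℤ → ℤ) (η : (Qd t c)ˣ)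

open scoped Classical in
/-- the Fejer sum over the pairs of different sign and equal character (real case) -/
noncomputable def FSR (u : Qd t c) (K : ℕ) (X : ℝ) : ℝ :=
  ∑ z ∈ R.UR η A X, ∑ z' ∈ R.UR η A X,
    (if g (nm z) ≠ g (nm (u * z')) ∧ χ z.re = χ (u * z').re then
      Fj K (Pool.Agent.W78.GR.ang η z - Pool.Agent.W78.GR.ang η (u * z')) else 0)

open scoped Classical in
/-- pairs of different sign, equal character and angular distance at most `δ` -/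
noncomputable def APR (u : Qd t c) (δ : ℝ) (X : ℝ) : Finset (Qd t c × Qd t c) :=
  ((R.UR η A X) ×ˢ (R.UR η A X)).filter (fun p => g (nm p.1) ≠ g (nm (u * p.2)) ∧
    χ p.1.re = χ (u * p.2).re ∧
    |rd (Pool.Agent.W78.GR.ang η p.1 - Pool.Agent.W78.GR.ang η (u * p.2))| ≤ δ)

open scoped Classical in
/-- pairs of different sign, equal character and small determinant -/
noncomputable def NPR (u : Qd t c) (B : ℕ) (X : ℝ) : Finset (Qd t c × Qd t c) :=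
  ((R.UR η A X) ×ˢ (R.UR η A X)).filter (fun p => g (nm p.1) ≠ g (nm (u * p.2)) ∧
    χ p.1.re = χ (u * p.2).re ∧ |dt p.1 (u * p.2)| ≤ B)

/-- NR0: the main frequency of the constant function is not always small -/
def S_WINR : Prop := ∃ c₀ : ℝ, 0 < c₀ ∧ ∃ C : ℝ, 1 ≤ C ∧
  ∃ Y₀ : ℝ, ∀ Y : ℝ, Y₀ ≤ Y → ∃ Y' : ℝ, Y / C ≤ Y' ∧ Y' ≤ C * Y ∧
    c₀ ≤ ∑ z ∈ R.UR η A (Real.exp 1 * Y'), bg Y' z

/-- NR1: the `T`-inequality with two functions, real case -/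
def S_TINR : Prop := IsChi A χ → ∀ u : Qd t c, Pool.Agent.W78.GR.tp u → g (nm u) = -1 →
  χ u.re = 1 → ∀ (Y : ℝ) (K : ℕ), 0 < Y → 1 ≤ K →
    (∑ z ∈ R.UR η A (Real.exp 1 * Y), bg Y z) ^ 2 ≤
      2 * (Real.exp 1 / Y) ^ 2 * (FSR g A χ η 1 K (Real.exp 1 * Y) +
        FSR g A χ η u K (Real.exp 1 * Y)) +
      (∑ k ∈ (FK K).erase 0, ‖R.GG η (fun z => g (nm z) * χ z.re ^ 2) Y k‖ ^ 2 +
       ∑ k ∈ (FK K).erase 0, ‖R.GG η (fun z => g (nm z) * χ z.re) Y k‖ ^ 2)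

/-- NR2: far pairs contribute little -/
def S_FARR : Prop := ∃ C : ℝ, 0 < C ∧ ∀ (X T : ℝ) (K : ℕ) (u : Qd t c),
  1 ≤ X → 1 ≤ T → 1 ≤ K → 2 * T ≤ K → Pool.Agent.W78.GR.tp u →
    FSR g A χ η u K X ≤ K * ((APR g A χ η u (T / K) X).card : ℝ) +
      C * (X ^ 2 / T + X * K / T ^ 2)

open scoped Classical in
/-- NR3: pairs of small angular distance have small determinant -/
def S_ANGR : Prop := ∀ u : Qd t c, Pool.Agent.W78.GR.tp u → ∃ (C : ℝ) (J : ℤ), 0 < C ∧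
  ∀ (B : ℕ) (X δ : ℝ), 1 ≤ X → 0 ≤ δ → δ ≤ 1 / 2 → C * X * δ ≤ B →
    APR g A χ η u δ X ⊆
      (Icc (-J) J).biUnion (fun j => NPR g A χ η (((η ^ j : (Qd t c)ˣ) : Qd t c) * u) B X)

/-- NR4: many pairs of small determinant, different sign and equal character -/
def S_NEARR : Prop := ∃ (V : Finset (Qd t c)) (B : ℕ) (c₁ : ℝ),
  (∀ u ∈ V, Pool.Agent.W78.GR.tp u ∧ prim u ∧ Int.gcd u.re A = 1) ∧ 0 < c₁ ∧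
    ∃ X₀ : ℝ, ∀ X : ℝ, X₀ ≤ X → c₁ * X ≤ ∑ u ∈ V, ((NPR g A χ η u B X).card : ℝ)

/-- NR5: few pairs with the same norm and the same product -/
def S_MULR : Prop := ∀ (u : Qd t c) (B : ℕ), Pool.Agent.W78.GR.tp u →
  ∃ C : ℕ, ∀ (E G : ℕ) (n k : ℤ) (d d' : ℕ) (S : Finset (Qd t c × Qd t c)),
    1 ≤ E → E ≤ B → 1 ≤ G → G ≤ B → 1 ≤ d → 1 ≤ d' → Int.gcd n k = 1 →
    (d : ℤ) * d' = n ^ 2 + t * n * k + c * k ^ 2 →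
    (∀ p ∈ S, Pool.Agent.W78.GR.fd η p.1 ∧ Pool.Agent.W78.GR.fd η p.2 ∧ nm p.1 = d * G ∧
      ip p.1 (u * p.2) = E * n ∧ dt p.1 (u * p.2) = E * k) → S.card ≤ C

end real

/-! ## Part T: triples with character `1` -/

open scoped Classical in
/-- triples `(d, n, d')`, `d d' = n^2 + b κ n + m κ^2`, `gcd(n, κ) = 1`, sign `-1`, `χ(n) = 1` -/
noncomputable def TX (g : ℕ → ℤ) (b m : ℤ) (A : ℕ) (κ : ℤ) (X : ℝ) : Finset Tr :=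
  (tri (b * κ) (m * κ ^ 2) X X).filter (fun e => Int.gcd e.2.1 κ = 1 ∧ g (NT e) = -1 ∧
    chi (b ^ 2 - 4 * m) A e.2.1 = 1)

/-- T1: from pairs to triples, imaginary case -/
def S_TRII (g : ℕ → ℤ) (b m : ℤ) (A : ℕ) : Prop := ∀ (u : Qd (b * A) (m * A ^ 2)) (B : ℕ),
  Int.gcd u.re A = 1 → prim u → ∃ C : ℝ, 1 ≤ C ∧ ∀ X : ℝ, 1 ≤ X →
    ((NPI g b m A (chi (b ^ 2 - 4 * m) A) u B X).card : ℝ) ≤
      C * ∑ k ∈ (Icc (-(B : ℤ)) B).erase 0, ((TX g b m A (A * k) (C * X)).card : ℝ)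

/-- T2: from pairs to triples, real case -/
def S_TRIR (g : ℕ → ℤ) (b m : ℤ) (A : ℕ) (η : (Qd (b * A) (m * A ^ 2))ˣ) : Prop :=
  ∀ (u : Qd (b * A) (m * A ^ 2)) (B : ℕ), Int.gcd u.re A = 1 → Pool.Agent.W78.GR.tp u → prim u →
    ∃ C : ℝ, 1 ≤ C ∧ ∀ X : ℝ, 1 ≤ X →
    ((NPR g A (chi (b ^ 2 - 4 * m) A) η u B X).card : ℝ) ≤
      C * ∑ k ∈ (Icc (-(B : ℤ)) B).erase 0, ((TX g b m A (A * k) (C * X)).card : ℝ)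

/-- T3: symmetry -/
def S_SYM (g : ℕ → ℤ) (b m : ℤ) (A : ℕ) : Prop := ∀ (κ : ℤ) (X : ℝ), κ ≠ 0 → (A : ℤ) ∣ κ →
  (TX g b m A κ X).card = (TX g b m A (-κ) X).card

/-- T4: a positive proportion of triples, all nonsquare discriminants -/
def S_POS (g : ℕ → ℤ) (b m : ℤ) (A : ℕ) : Prop := ∃ (B : ℕ) (c₂ X₀ : ℝ), 0 < c₂ ∧
  ∀ X : ℝ, X₀ ≤ X → c₂ * X ≤ ∑ k ∈ Icc (1 : ℤ) B, ((TX g b m A (A * k) X).card : ℝ)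

/-! ## Part S: the sieve, without sign -/

/-- a prime of `Q` can be moved so that `d ≡ n` modulo `M` -/
def G1 (M : ℤ) (Q : Finset ℕ) (e : Tr) : Prop := ∃ l ∈ Q, ∃ d : ℕ, e.1 = l * d ∧ M ∣ e.2.1 - d

/-- the swapped triple -/
def sw (e : Tr) : Tr := (e.2.2, e.2.1, e.1)

open scoped Classical in
/-- S1: for most triples with character `1` primes can be moved in both directions -/
def S_SV2 (b m : ℤ) (A : ℕ) : Prop := ∀ (κ : ℤ) (M : ℕ), κ ≠ 0 → 1 ≤ M → κ ∣ M → (A : ℤ) ∣ κ →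
  (∀ p : ℕ, p.Prime → p ∣ M → (p : ℤ) ∣ κ) →
  ∀ δ : ℝ, 0 < δ → ∃ Q : Finset ℕ, (∀ q ∈ Q, q.Prime) ∧ ∃ X₀ : ℝ, ∀ X : ℝ, X₀ ≤ X →
    (((tri (b * κ) (m * κ ^ 2) X X).filter (fun e => Int.gcd e.2.1 κ = 1 ∧
      chi (b ^ 2 - 4 * m) A e.2.1 = 1 ∧ ¬ (G1 M Q e ∧ G1 M Q (sw e)))).card : ℝ) ≤ δ * X

open scoped Classical in
/-- S2: from triples to positive integers -/
def S_CNT2 (g : ℕ → ℤ) (a b c : ℤ) : Prop := ∀ (κ : ℤ) (Q : Finset ℕ), 0 < κ → a ∣ κ →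
  (∀ q ∈ Q, q.Prime) → ∀ ε : ℝ, 0 < ε → ∃ C : ℝ, 1 ≤ C ∧ ∀ N : ℕ, 1 ≤ N → ∀ s : ℤ,
    (s = 1 ∨ s = -1) →
    (((tri (b * κ) (a * c * κ ^ 2) (N / C) (N / C)).filter (fun e => Int.gcd e.2.1 κ = 1 ∧
      g (NT e) = -1 ∧ G1 (a * κ) Q e ∧ G1 (a * κ) Q (sw e))).card : ℝ) ≤
      C * (N : ℝ) ^ ε * (((Icc 1 N).filter
        (fun n : ℕ => g (Fp a b c n).natAbs = s)).card : ℝ) + C

open scoped Classical in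
/-- the final statement: many positive integers with each sign -/
def S_ALL (a b c : ℤ) : Prop := ∀ s : ℤ, (s = 1 ∨ s = -1) → ∀ ε : ℝ, 0 < ε → ∃ N₀ : ℕ,
  ∀ N : ℕ, N₀ ≤ N → (N : ℝ) ^ (1 - ε) ≤
    (((Icc 1 N).filter (fun n : ℕ => lam (Fp a b c n).natAbs = s)).card : ℝ)

end Pool.Agent.H648.Q2
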