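import Pool.Agent.H648.Q.Defs2

/-!
# Project Q648, third part: a positive proportion of the factorisations, and the exponent `log 2`
-/

set_option autoImplicit false

namespace Pool.Agent.H648.Q3

open Finset Filter
open Pool.Agent.H376R2.MR (lam)
open Pool.Agent.W78.GT (Tr NT tri rts Qp)
open Pool.Agent.H648.Q (Fp)
open Pool.Agent.H648.Q2 (G1 sw)

open scoped Classical in
/-- the pairs `(d, d')`, `d, d' ≤ N`, with `d d' = k f(x)` for some `x ≥ 1` with `g(|f(x)|) = s` -/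
noncomputable def PA (g : ℕ → ℤ) (a b c k s : ℤ) (N : ℕ) : Finset (ℕ × ℕ) :=
  (Icc 1 N ×ˢ Icc 1 N).filter (fun p => ∃ x : ℕ, 1 ≤ x ∧ (p.1 : ℤ) * p.2 = k * Fp a b c x ∧
    g (Fp a b c x).natAbs = s)

open scoped Classical in
/-- the pairs `(d, d')`, `d, d' ≤ N`, with `d d' = f(x)` for some `x ≥ 1` and `g(d d') = s` -/
noncomputable def PR (g : ℕ → ℤ) (a b c s : ℤ) (N : ℕ) : Finset (ℕ × ℕ) :=
  (Icc 1 N ×ˢ Icc 1 N).filter (fun p => (∃ x : ℕ, 1 ≤ x ∧ (p.1 : ℤ) * p.2 = Fp a b c x) ∧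
    g (p.1 * p.2) = s)

open scoped Classical in
/-- U1: from triples to pairs -/
def S_CNT3 (g : ℕ → ℤ) (a b c : ℤ) : Prop := ∀ (κ : ℤ) (Q : Finset ℕ), 0 < κ → a ∣ κ →
  (∀ q ∈ Q, q.Prime) → ∃ C : ℝ, 1 ≤ C ∧ ∀ N : ℕ, 1 ≤ N → ∀ s : ℤ, (s = 1 ∨ s = -1) →
    (((tri (b * κ) (a * c * κ ^ 2) (N / C) (N / C)).filter (fun e => Int.gcd e.2.1 κ = 1 ∧
      g (NT e) = -1 ∧ G1 (a * κ) Q e ∧ G1 (a * κ) Q (sw e))).card : ℝ) ≤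
      C * ((PA g a b c (a * κ ^ 2) s N).card : ℝ) + C

/-- U2: removing the factor `k` -/
def S_RED3 (g : ℕ → ℤ) (a b c : ℤ) : Prop := ∀ k : ℤ, 0 < k → ∃ C : ℝ, 1 ≤ C ∧
  ∀ (N : ℕ) (s : ℤ), ((PA g a b c k s N).card : ℝ) ≤ C * ((PR g a b c s N).card : ℝ)

/-- U3: a positive proportion of the pairs has each sign -/
def S_PRS (g : ℕ → ℤ) (a b c : ℤ) : Prop := ∀ s : ℤ, (s = 1 ∨ s = -1) → ∃ c₀ : ℝ, 0 < c₀ ∧
  ∃ N₀ : ℕ, ∀ N : ℕ, N₀ ≤ N → c₀ * N ≤ ((PR g a b c s N).card : ℝ)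

open scoped Classical in
/-- U4: many positive integers with each sign, with the exponent `log 2` -/
def S_LOG (g : ℕ → ℤ) (a b c : ℤ) : Prop := ∀ s : ℤ, (s = 1 ∨ s = -1) → ∀ ε : ℝ, 0 < ε →
  ∃ N₀ : ℕ, ∀ N : ℕ, N₀ ≤ N → (N : ℝ) / Real.log N ^ (Real.log 2 + ε) ≤
    (((Icc 1 N).filter (fun n : ℕ => g (Fp a b c n).natAbs = s)).card : ℝ)

open scoped Classical in
/-- U5: upper bound for the number of all pairs -/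
def S_UPB (a b c : ℤ) : Prop := ∃ C : ℝ, 1 ≤ C ∧ ∀ N : ℕ,
  (((Icc 1 N ×ˢ Icc 1 N).filter (fun p : ℕ × ℕ =>
    ∃ x : ℕ, 1 ≤ x ∧ (p.1 : ℤ) * p.2 = Fp a b c x)).card : ℝ) ≤ C * N

end Pool.Agent.H648.Q3
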