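import Pool.Agent.H648.Q.Defs

/-!
# Project Q648: the assembly of the theorem on definite quadratic polynomials
-/

set_option autoImplicit false

namespace Pool.Agent.H648.Q

open Finset Filter
open Pool.Agent.H376R2.MR (FK Fj lam)
open Pool.Agent.W78.GA (Qd nm prim bg dt ip ang pball ball DPG ps)
open Pool.Agent.W78.GS (Pm)
open Pool.Agent.W78.GT (Tr NT tri rts Qp)

lemma TS_mono (g : ℕ → ℤ) (b m κ : ℤ) {X Y : ℝ} (h : X ≤ Y) : TS g b m κ X ⊆ TS g b m κ Y := by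
  classical
  intro e he
  unfold TS at *
  rw [mem_filter] at *
  exact ⟨Pool.Agent.W78.GT.tri_mono h h he.1, he.2⟩

lemma comb {a b c : ℤ} (hSV : S_SV b (a * c)) (hCNT : S_CNT lam a b c) (ha : a ≠ 0) (k : ℤ)
    (hk : k ≠ 0) {δ ε : ℝ} (hδ : 0 < δ) (hε : 0 < ε) : ∃ (C X₀ : ℝ), 1 ≤ C ∧ ∀ (X : ℝ) (N : ℕ),
      X₀ ≤ X → 1 ≤ N → X ≤ N / C → ∀ s : ℤ, (s = 1 ∨ s = -1) →
      ((TS lam b (a * c) (a.natAbs * k) X).card : ℝ) ≤
        C * (N : ℝ) ^ ε * (((open scoped Classical in (Icc (-(N : ℤ)) N).filter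
          (fun n => lam (Fp a b c n).natAbs = s))).card : ℝ) + δ * X := by
  classical
  set κ : ℤ := a.natAbs * k with hκ
  have haA : (a.natAbs : ℤ) ≠ 0 := by simpa using ha
  have hκ0 : κ ≠ 0 := mul_ne_zero haA hk
  have haκ : a ∣ κ := by
    rw [hκ]
    exact Dvd.dvd.mul_right (Int.dvd_natAbs.2 dvd_rfl) _
  have hM1 : 1 ≤ (a * κ).natAbs := Int.natAbs_pos.2 (mul_ne_zero ha hκ0)
  obtain ⟨Q, hQ, X₀, hX⟩ := hSV κ (a * κ).natAbs hκ0 hM1
    (Int.dvd_natAbs.2 (Dvd.intro_left a rfl)) (by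
      intro p hp hpd
      have h1 : (p : ℤ) ∣ a * κ := Int.natCast_dvd.2 hpd
      rcases (Nat.prime_iff_prime_int.1 hp).dvd_or_dvd h1 with h | h
      · exact h.trans haκ
      · exact h) δ hδ
  obtain ⟨C, hC, hN⟩ := hCNT κ Q hκ0 haκ hQ ε hε
  refine ⟨C, X₀, hC, fun X N hXX hN1 hXN s hs => ?_⟩
  have h1 := hX X hXX
  have h2 := hN N hN1 s hs
  have hsplit : TS lam b (a * c) κ X ⊆
      ((TS lam b (a * c) κ (N / C)).filter (fun e => Gd (a * κ) Q e)) ∪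
      ((tri (b * κ) (a * c * κ ^ 2) X X).filter
        (fun e => Int.gcd e.2.1 κ = 1 ∧ ¬ Gd (a * κ).natAbs Q e)) := by
    intro e he
    have he' := TS_mono lam b (a * c) κ hXN he
    unfold TS at he
    rw [mem_filter] at he
    by_cases hg : Gd (a * κ) Q e
    · exact mem_union_left _ (mem_filter.2 ⟨he', hg⟩)
    · refine mem_union_right _ (mem_filter.2 ⟨he.1, he.2.1, fun h => hg ?_⟩)
      obtain ⟨l, hl, d, h3, h4⟩ := h
      refine ⟨l, hl, d, h3, ?_⟩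
      rcases h4 with h4 | h4
      · exact Or.inl (Int.natAbs_dvd.1 h4)
      · exact Or.inr (Int.natAbs_dvd.1 h4)
  have h3 : ((TS lam b (a * c) κ X).card : ℝ) ≤
      (((TS lam b (a * c) κ (N / C)).filter (fun e => Gd (a * κ) Q e)).card : ℝ) +
      (((tri (b * κ) (a * c * κ ^ 2) X X).filter
        (fun e => Int.gcd e.2.1 κ = 1 ∧ ¬ Gd (a * κ).natAbs Q e)).card : ℝ) := by
    exact_mod_cast (card_le_card hsplit).trans (card_union_le _ _)
  linarith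

theorem fin_of {a b c : ℤ} (hD : b ^ 2 < 4 * (a * c)) (hMRU : S_MRU lam b (a * c))
    (hNEAR : S_NEAR lam b (a * c)) (hTRI : S_TRI lam b (a * c)) (hSV : S_SV b (a * c))
    (hCNT : S_CNT lam a b c) (hUNT : S_UNT b (a * c)) : S_FIN a b c := by
  classical
  have ha : a ≠ 0 := by
    rintro rfl
    nlinarith [sq_nonneg b]
  intro s hs ε hε
  set A : ℕ := a.natAbs with hA
  have hA1 : 1 ≤ A := Int.natAbs_pos.2 ha
  have hA0 : A ≠ 0 := by omega
  set e : ℕ := ∏ p ∈ A.primeFactors, p with he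
  have heA : e ∣ A := Nat.prod_primeFactors_dvd A
  have hepos : 1 ≤ e := Nat.pos_of_dvd_of_pos heA hA1
  have hesq : Squarefree e := by
    rw [he, Nat.squarefree_iff_prime_squarefree]
    intro p hp hpp
    have h1 : p ∈ A.primeFactors := by
      have : p ∣ A := (Dvd.intro _ rfl).trans (hpp.trans heA)
      exact Nat.mem_primeFactors.2 ⟨hp, this, hA0⟩
    rw [← mul_prod_erase _ _ h1] at hpp
    have h2 : p ∣ ∏ q ∈ A.primeFactors.erase p, q := Nat.dvd_of_mul_dvd_mul_left hp.pos hpp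
    obtain ⟨q, hq, hpq⟩ := (hp.prime.dvd_finsetProd_iff _).1 h2
    rw [mem_erase] at hq
    exact hq.1 ((Nat.prime_dvd_prime_iff_eq hp (Nat.prime_of_mem_primeFactors hq.2)).1 hpq).symm
  have hprim : ∀ p : ℕ, p.Prime → p ∣ A → p ∣ e := fun p hp hpA =>
    dvd_prod_of_mem _ (Nat.mem_primeFactors.2 ⟨hp, hpA, hA0⟩)
  obtain ⟨u₀, hu0, hu1, hu2⟩ := hUNT A hA1
  obtain ⟨B, c₁, hc₁, X₁, hnear⟩ := hNEAR A e u₀ hA1 hepos (hMRU A e hA1 heA hesq) hu0 hu2
  have h10 : (1 : Qd (b * A) (a * c * A ^ 2)) ≠ 0 := by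
    intro h
    have h1 := congrArg QuadraticAlgebra.re h
    rw [QuadraticAlgebra.re_one, QuadraticAlgebra.re_zero] at h1
    exact one_ne_zero h1
  obtain ⟨C₁, hC₁, htri1⟩ := hTRI A e 1 B hA1 hprim
    (by rw [QuadraticAlgebra.re_one, Int.gcd_one_left]) h10
  obtain ⟨C₂, hC₂, htri2⟩ := hTRI A e u₀ B hA1 hprim hu1 hu0
  set C₀ : ℝ := max C₁ C₂ with hC₀
  have hC₀1 : 1 ≤ C₀ := hC₁.trans (le_max_left _ _)
  have hC₀pos : 0 < C₀ := by linarith
  set I : Finset ℤ := (Icc (-(B : ℤ)) B).erase 0 with hI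
  -- total bound
  have htot : ∀ X : ℝ, max X₁ 1 ≤ X → c₁ * X ≤
      2 * C₀ * ∑ k ∈ I, ((TS lam b (a * c) (A * k) (C₀ * X)).card : ℝ) := by
    intro X hX
    have hX1 : X₁ ≤ X := (le_max_left _ _).trans hX
    have hX2 : 1 ≤ X := (le_max_right _ _).trans hX
    have hX0 : 0 ≤ X := by linarith
    have key : ∀ C' : ℝ, 1 ≤ C' → C' ≤ C₀ →
        C' * ∑ k ∈ I, ((TS lam b (a * c) (A * k) (C' * X)).card : ℝ) ≤
        C₀ * ∑ k ∈ I, ((TS lam b (a * c) (A * k) (C₀ * X)).card : ℝ) := by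
      intro C' hC' hCC
      refine mul_le_mul hCC (sum_le_sum fun k _ => ?_) (sum_nonneg fun _ _ => by positivity)
        hC₀pos.le
      exact_mod_cast card_le_card (TS_mono _ _ _ _ (mul_le_mul_of_nonneg_right hCC hX0))
    have h1 := hnear X hX1
    have h2 := (htri1 X hX2).trans (key C₁ hC₁ (le_max_left _ _))
    have h3 := (htri2 X hX2).trans (key C₂ hC₂ (le_max_right _ _))
    linarith
  set δ : ℝ := c₁ / (4 * C₀ ^ 2 * (I.card + 1)) with hδ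
  have hδ0 : 0 < δ := by positivity
  have hk : ∀ k : ℤ, ∃ (C X₀ : ℝ), 1 ≤ C ∧ (k ≠ 0 → ∀ (X : ℝ) (N : ℕ),
      X₀ ≤ X → 1 ≤ N → X ≤ N / C →
      ((TS lam b (a * c) (A * k) X).card : ℝ) ≤
        C * (N : ℝ) ^ (ε / 2) * (((Icc (-(N : ℤ)) N).filter
          (fun n => lam (Fp a b c n).natAbs = s)).card : ℝ) + δ * X) := by
    intro k
    by_cases hk : k = 0
    · exact ⟨1, 0, le_rfl, fun h => absurd hk h⟩
    · obtain ⟨C, X₀, hC, h⟩ := comb hSV hCNT ha k hk hδ0 (half_pos hε)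
      exact ⟨C, X₀, hC, fun _ X N h1 h2 h3 => h X N h1 h2 h3 s hs⟩
  choose Ck Xk hCk hTk using hk
  set Cm : ℝ := 1 + ∑ k ∈ I, Ck k with hCm
  have hCk0 : ∀ k, 0 ≤ Ck k := fun k => by linarith [hCk k]
  have hCkm : ∀ k ∈ I, Ck k ≤ Cm := by
    intro k hk
    have := single_le_sum (f := Ck) (fun j _ => hCk0 j) hk
    linarith
  have hCm1 : 1 ≤ Cm := by
    have : 0 ≤ ∑ k ∈ I, Ck k := sum_nonneg fun k _ => hCk0 k
    linarith
  have hCmpos : 0 < Cm := by linarith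
  set Xm : ℝ := max X₁ 1 + ∑ k ∈ I, |Xk k| with hXm
  have hXkm : ∀ k ∈ I, Xk k ≤ Xm := by
    intro k hk
    have h1 := single_le_sum (f := fun j => |Xk j|) (fun j _ => abs_nonneg _) hk
    have h2 := le_abs_self (Xk k)
    have h3 : 1 ≤ max X₁ 1 := le_max_right _ _
    linarith
  have hXm1 : max X₁ 1 ≤ Xm := by
    have : 0 ≤ ∑ k ∈ I, |Xk k| := sum_nonneg fun k _ => abs_nonneg _
    linarith
  -- the final count
  set c₂ : ℝ := c₁ / (4 * C₀ ^ 2 * Cm * Cm) with hc₂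
  have hc₂0 : 0 < c₂ := by positivity
  have hmain : ∀ N : ℕ, 1 ≤ N → Xm ≤ N / (C₀ * Cm) → c₂ * (N : ℝ) ≤ (N : ℝ) ^ (ε / 2) *
      (((Icc (-(N : ℤ)) N).filter (fun n => lam (Fp a b c n).natAbs = s)).card : ℝ) := by
    intro N hN hNX
    set S : ℝ := (((Icc (-(N : ℤ)) N).filter
      (fun n => lam (Fp a b c n).natAbs = s)).card : ℝ) with hS
    have hS0 : 0 ≤ S := Nat.cast_nonneg _
    set X : ℝ := N / (C₀ * Cm) with hX
    have hC0X : C₀ * X = N / Cm := by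
      rw [hX]; field_simp
    have hXpos : 0 < X := by
      have : 1 ≤ max X₁ 1 := le_max_right _ _
      linarith
    have hNpos : (0 : ℝ) < N := by exact_mod_cast hN
    have hpow : 0 ≤ (N : ℝ) ^ (ε / 2) := by positivity
    have h1 := htot X (hXm1.trans hNX)
    have hterm : ∀ k ∈ I, ((TS lam b (a * c) (A * k) (C₀ * X)).card : ℝ) ≤
        Ck k * ((N : ℝ) ^ (ε / 2) * S) + δ * (C₀ * X) := by
      intro k hkI
      have hk0 : k ≠ 0 := (mem_erase.1 hkI).1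
      have h2 := hTk k hk0 (C₀ * X) N ((hXkm k hkI).trans (hNX.trans (by nlinarith))) hN (by
        rw [hC0X]
        exact div_le_div_of_nonneg_left hNpos.le (by linarith [hCk k]) (hCkm k hkI))
      rw [mul_assoc] at h2
      exact h2
    have h2 := sum_le_sum hterm
    rw [sum_add_distrib, ← sum_mul, sum_const, nsmul_eq_mul] at h2
    have h3 : ∑ k ∈ I, Ck k ≤ Cm := by linarith
    have h4 : (∑ k ∈ I, Ck k) * ((N : ℝ) ^ (ε / 2) * S) ≤ Cm * ((N : ℝ) ^ (ε / 2) * S) :=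
      mul_le_mul_of_nonneg_right h3 (mul_nonneg hpow hS0)
    have h5 : 2 * C₀ * ((I.card : ℝ) * (δ * (C₀ * X))) ≤ c₁ * X / 2 := by
      rw [hδ]
      have e1 : 2 * C₀ * ((I.card : ℝ) * (c₁ / (4 * C₀ ^ 2 * (I.card + 1)) * (C₀ * X))) =
          (c₁ * X / 2) * ((I.card : ℝ) / (I.card + 1)) := by
        field_simp
        ring
      rw [e1]
      have h6 : (I.card : ℝ) / (I.card + 1) ≤ 1 := by
        rw [div_le_one (by positivity)]; linarith
      have h7 : 0 ≤ c₁ * X / 2 := by positivity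
      nlinarith
    have h6 : c₁ * X ≤ 2 * C₀ * (Cm * ((N : ℝ) ^ (ε / 2) * S)) + c₁ * X / 2 := by
      calc c₁ * X ≤ _ := h1
        _ ≤ 2 * C₀ * (Cm * ((N : ℝ) ^ (ε / 2) * S) + (I.card : ℝ) * (δ * (C₀ * X))) := by
            apply mul_le_mul_of_nonneg_left _ (by positivity)
            linarith
        _ = 2 * C₀ * (Cm * ((N : ℝ) ^ (ε / 2) * S)) +
            2 * C₀ * ((I.card : ℝ) * (δ * (C₀ * X))) := by ring
        _ ≤ _ := by linarith
    have h7 : c₁ * X ≤ 4 * C₀ * Cm * ((N : ℝ) ^ (ε / 2) * S) := by linarith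
    have h8 : c₂ * (N : ℝ) = c₁ * X / (4 * C₀ * Cm) := by
      rw [hc₂, hX]
      field_simp
    rw [h8, div_le_iff₀ (by positivity)]
    linarith
  -- choose N₀
  have ht : Tendsto (fun N : ℕ => (N : ℝ) ^ (ε / 2)) atTop atTop :=
    (tendsto_rpow_atTop (half_pos hε)).comp tendsto_natCast_atTop_atTop
  have ht2 : Tendsto (fun N : ℕ => (N : ℝ) / (C₀ * Cm)) atTop atTop :=
    tendsto_natCast_atTop_atTop.atTop_div_const (by positivity)
  obtain ⟨N₀, hN₀⟩ := eventually_atTop.1 (((ht.eventually_ge_atTop (1 / c₂)).and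
    (ht2.eventually_ge_atTop Xm)).and (eventually_ge_atTop 1))
  refine ⟨N₀, fun N hN => ?_⟩
  obtain ⟨⟨h1, h2⟩, h3⟩ := hN₀ N hN
  have h4 := hmain N h3 h2
  have hNpos : (0 : ℝ) < N := by exact_mod_cast h3
  have hp : 0 < (N : ℝ) ^ (ε / 2) := Real.rpow_pos_of_pos hNpos _
  have h5 : (N : ℝ) ^ (1 - ε) * (N : ℝ) ^ (ε / 2) * (N : ℝ) ^ (ε / 2) = N := by
    rw [mul_assoc, ← Real.rpow_add hNpos, ← Real.rpow_add hNpos]
    have : 1 - ε + (ε / 2 + ε / 2) = 1 := by ring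
    rw [this, Real.rpow_one]
  have h6 : 1 ≤ c₂ * (N : ℝ) ^ (ε / 2) := by
    rw [div_le_iff₀ hc₂0] at h1
    linarith
  have h7 : 0 ≤ (N : ℝ) ^ (1 - ε) := by positivity
  have h8 : (N : ℝ) ^ (1 - ε) * (N : ℝ) ^ (ε / 2) ≤ c₂ * (N : ℝ) := by
    calc (N : ℝ) ^ (1 - ε) * (N : ℝ) ^ (ε / 2) ≤
        (N : ℝ) ^ (1 - ε) * (N : ℝ) ^ (ε / 2) * (c₂ * (N : ℝ) ^ (ε / 2)) :=
          le_mul_of_one_le_right (by positivity) h6
      _ = c₂ * ((N : ℝ) ^ (1 - ε) * (N : ℝ) ^ (ε / 2) * (N : ℝ) ^ (ε / 2)) := by ring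
      _ = c₂ * (N : ℝ) := by rw [h5]
  have h9 := h8.trans h4
  rw [mul_comm ((N : ℝ) ^ (ε / 2))] at h9
  exact le_of_mul_le_mul_right h9 hp

end Pool.Agent.H648.Q
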